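import Pool.Agent.Lib.MP_4b2155_pr.Main

set_option autoImplicit false

namespace Pool.Agent.Results.MP_4b2155_pr.LargeK

open Pool.Agent.Lib.MP_4b2155_pr

theorem result : ∃ k₀ : ℕ, ∀ k ≥ k₀, ∃ ε : ℝ, 0 < ε ∧ ∀ δ : ℝ, 0 < δ →
    Filter.Tendsto (fun n : ℕ => prob n fun π =>
      (∃ (τ : ℕ) (V : Fin k → Set (Fin n)), First π τ V) ∧
      ∀ (τ : ℕ) (V : Fin k → Set (Fin n)), First π τ V →
        ε * n ≤ (⋃ i, V i).ncard ∧
        ∀ H : ((proc π τ).induce (⋃ i, V i)).Subgraph, UniqCol H.coe k →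
          (H.verts.ncard : ℝ) ≤ δ * n) Filter.atTop (nhds 1) :=
  main

end Pool.Agent.Results.MP_4b2155_pr.LargeK
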