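import Pool.Agent.Lib.MP_4b2155_pr.Q.Top

set_option autoImplicit false

namespace Pool.Agent.Results.MP_4b2155_pr.NoCore

open Pool.Agent.Lib.MP_4b2155_pr

theorem result (k : ℕ) (hk : 3 ≤ k) : ∃ ε : ℝ, 0 < ε ∧ ∃ η : ℝ, 0 < η ∧
    ∀ᶠ n : ℕ in Filter.atTop, η ≤ prob n fun π =>
      ∃ (τ : ℕ) (V : Fin k → Set (Fin n)), First π τ V ∧ ε * n ≤ (⋃ i, V i).ncard ∧
        ∀ H : ((proc π τ).induce (⋃ i, V i)).Subgraph, UniqCol H.coe k →
          H.verts.ncard ≤ k + 2 :=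
  Q.main hk

/-- The negated form of Q2, word for word, as a consequence of `result`. -/
theorem negated_Q2 (k : ℕ) (hk : 3 ≤ k) (f : ℕ → ℝ)
    (hf : f =o[Filter.atTop] fun n : ℕ => (n : ℝ)) :
    ¬ Filter.Tendsto (fun n : ℕ => prob n fun π =>
      ∀ (τ : ℕ) (V : Fin k → Set (Fin n)), First π τ V →
        ∃ H : ((proc π τ).induce (⋃ i, V i)).Subgraph, UniqCol H.coe k ∧
          ((⋃ i, V i).ncard : ℝ) - f n ≤ H.verts.ncard) Filter.atTop (nhds 1) := by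
  intro h
  obtain ⟨ε, ε0, η, η0, h1⟩ := result k hk
  obtain ⟨n, a1, a2, a3, a4⟩ := (h1.and ((h.eventually_const_lt (sub_lt_self 1 η0)).and
    ((hf.def (half_pos ε0)).and (ev_ge (2 * (k + 3) / ε))))).exists
  rw [prob_eq] at a1 a2
  rw [div_le_iff₀' ε0] at a4
  rw [Real.norm_natCast, Real.norm_eq_abs] at a3
  refine not_le.2 (sub_lt_comm.1 a2)
    (a1.trans ((Pool.Agent.Lib.MP_ad359d_co.FP.P_mono _ ?_).trans_eq
      (Pool.Agent.Lib.MP_ad359d_co.FP.P_not _ _)))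
  rintro π ⟨τ, V, b1, b2, b3⟩ b4
  obtain ⟨H, c1, c2⟩ := b4 τ V b1
  have : (H.verts.ncard : ℝ) ≤ k + 2 := by exact_mod_cast b3 H c1
  linarith [le_abs_self (f n)]

end Pool.Agent.Results.MP_4b2155_pr.NoCore
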